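import Pool.Agent.W941.MG.Stm

/-!
# Project MG, part PAIRS: few pairs of partitions which share a class survive
-/

set_option autoImplicit false

namespace Pool.Agent.W699.MG

open Pool.Agent.W941.MG

/-- the canonical representative of a class -/
noncomputable def rep {b : ℕ} (R : Fin b → Fin b → Prop) (i : Fin b) : Fin b :=
  Quotient.out (Quotient.mk (Relation.EqvGen.setoid R) i)

lemma rep_eq {b : ℕ} (R : Fin b → Fin b → Prop) (i j : Fin b) :
    rep R i = rep R j ↔ Relation.EqvGen R i j := by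
  unfold rep
  rw [Quotient.out_inj, Quotient.eq]
  rfl

/-- the size of a class -/
def rs {b : ℕ} (ρ : Fin b → Fin b) (i : Fin b) : ℕ :=
  (Finset.univ.filter fun j => ρ j = i).card

lemma card_fib {b m : ℕ} {f : Fin (b * m) → Fin b} (hf : Bal b m f) (ρ : Fin b → Fin b)
    (i : Fin b) : (Finset.univ.filter fun c => ρ (f c) = i).card = rs ρ i * m := by
  rw [Finset.card_eq_sum_card_fiberwise (f := f) (t := Finset.univ.filter fun j => ρ j = i)]
  · refine (Finset.sum_congr rfl (g := fun _ => m) fun j hj => ?_).trans ?_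
    swap
    · rw [Finset.sum_const, smul_eq_mul]
      rfl
    refine Eq.trans ?_ (hf j)
    congr 1
    ext c
    simp only [Finset.mem_filter, Finset.mem_univ, true_and] at hj ⊢
    constructor
    · exact fun h => h.2
    · intro h
      exact ⟨by rw [h]; exact hj, h⟩
  · intro c hc
    have hc' := (Finset.mem_filter.1 (Finset.mem_coe.1 hc)).2
    exact Finset.mem_coe.2 (Finset.mem_filter.2 ⟨Finset.mem_univ _, hc'⟩)

lemma core {b m q : ℕ}
    (hyp : ∀ r, 2 ≤ r → r ≤ b - 1 → 4 * b ^ b * r ^ (r * m) ≤ q ^ (r - 1))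
    {f : Fin (b * m) → Fin b} (hf : Bal b m f) (ρ : Fin b → Fin b) (j : Fin b)
    (hj : ∀ i, ρ i = ρ j → i = j) (i₁ i₂ : Fin b) (hne : i₁ ≠ i₂) (h12 : ρ i₁ = ρ i₂) :
    4 * b ^ b * ∏ c, rs ρ (ρ (f c)) ≤ q ^ (b - (Finset.univ.image ρ).card) := by
  -- the product over the classes
  have h1 : ∏ c, rs ρ (ρ (f c)) = ∏ i ∈ Finset.univ.image ρ, rs ρ i ^ (rs ρ i * m) := by
    rw [← Finset.prod_fiberwise_of_maps_to (t := Finset.univ.image ρ)
      (g := fun c => ρ (f c)) (fun c _ => Finset.mem_image_of_mem ρ (Finset.mem_univ _))]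
    refine Finset.prod_congr rfl fun i _ => ?_
    rw [← card_fib hf ρ i]
    apply Finset.prod_eq_pow_card
    intro c hc
    rw [(Finset.mem_filter.1 hc).2]
  -- the exponent
  have hpos : ∀ i ∈ Finset.univ.image ρ, 1 ≤ rs ρ i := by
    intro i hi
    obtain ⟨x, _, hx⟩ := Finset.mem_image.1 hi
    exact Finset.card_pos.2 ⟨x, Finset.mem_filter.2 ⟨Finset.mem_univ _, hx⟩⟩
  have h2 : b - (Finset.univ.image ρ).card = ∑ i ∈ Finset.univ.image ρ, (rs ρ i - 1) := by
    have h3 : ∑ i ∈ Finset.univ.image ρ, rs ρ i = b := by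
      have h4 := Finset.card_eq_sum_card_image ρ (Finset.univ : Finset (Fin b))
      rw [Finset.card_univ, Fintype.card_fin] at h4
      exact h4.symm
    have h5 : ∑ i ∈ Finset.univ.image ρ, (rs ρ i - 1) + (Finset.univ.image ρ).card = b := by
      rw [Finset.card_eq_sum_ones, ← Finset.sum_add_distrib]
      refine Eq.trans (Finset.sum_congr rfl fun i hi => ?_) h3
      have := hpos i hi
      omega
    omega
  rw [h1, h2, ← Finset.prod_pow_eq_pow_sum]
  -- classes of size at least two
  have hbig : ∀ i, 2 ≤ rs ρ i → 4 * b ^ b * rs ρ i ^ (rs ρ i * m) ≤ q ^ (rs ρ i - 1) := by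
    intro i hi
    apply hyp _ hi
    have hnot : j ∉ Finset.univ.filter fun x => ρ x = i := by
      intro hmem
      have hji := (Finset.mem_filter.1 hmem).2
      have hsub : (Finset.univ.filter fun x => ρ x = i) ⊆ {j} := by
        intro x hx
        rw [Finset.mem_singleton]
        exact hj x ((Finset.mem_filter.1 hx).2.trans hji.symm)
      have := Finset.card_le_card hsub
      rw [Finset.card_singleton] at this
      unfold rs at hi
      omega
    have hsub : (Finset.univ.filter fun x => ρ x = i) ⊆ Finset.univ.erase j := by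
      intro x hx
      rw [Finset.mem_erase]
      refine ⟨?_, Finset.mem_univ _⟩
      rintro rfl
      exact hnot hx
    have := Finset.card_le_card hsub
    rw [Finset.card_erase_of_mem (Finset.mem_univ _), Finset.card_univ, Fintype.card_fin] at this
    exact this
  have hbb : 1 ≤ 4 * b ^ b := by
    have : 0 < b ^ b := by
      rcases Nat.eq_zero_or_pos b with h | h
      · subst h
        norm_num
      · exact Nat.pow_pos h
    omega
  have hall : ∀ i ∈ Finset.univ.image ρ, rs ρ i ^ (rs ρ i * m) ≤ q ^ (rs ρ i - 1) := by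
    intro i hi
    have h3 := hpos i hi
    rcases Nat.lt_or_ge (rs ρ i) 2 with h | h
    · have h4 : rs ρ i = 1 := by omega
      rw [h4]
      simp
    · refine le_trans ?_ (hbig i h)
      exact Nat.le_mul_of_pos_left _ hbb
  have hi0 : ρ i₁ ∈ Finset.univ.image ρ := Finset.mem_image_of_mem ρ (Finset.mem_univ _)
  have h2le : 2 ≤ rs ρ (ρ i₁) := by
    have hsub : ({i₁, i₂} : Finset (Fin b)) ⊆ Finset.univ.filter fun x => ρ x = ρ i₁ := by
      intro x hx
      rw [Finset.mem_insert, Finset.mem_singleton] at hx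
      refine Finset.mem_filter.2 ⟨Finset.mem_univ _, ?_⟩
      rcases hx with rfl | rfl
      · rfl
      · exact h12.symm
    have := Finset.card_le_card hsub
    rwa [Finset.card_pair hne] at this
  rw [← Finset.mul_prod_erase _ _ hi0, ← Finset.mul_prod_erase _ (fun i => q ^ (rs ρ i - 1)) hi0,
    ← mul_assoc]
  exact Nat.mul_le_mul (hbig _ h2le)
    (Finset.prod_le_prod' fun i hi => hall i (Finset.mem_of_mem_erase hi))

/-- the relation between the classes of two maps -/
def Rl {b n : ℕ} (f g : Fin n → Fin b) : Fin b → Fin b → Prop := fun i j => ∃ c, f c = i ∧ g c = j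

open Classical in
lemma aux {b m q : ℕ} (hq : 1 ≤ q)
    (hyp : ∀ r, 2 ≤ r → r ≤ b - 1 → 4 * b ^ b * r ^ (r * m) ≤ q ^ (r - 1))
    {f : Fin (b * m) → Fin b} (hf : Bal b m f) (G : Finset (Fin (b * m) → Fin b))
    (hG : ∀ g ∈ G, g ≠ f ∧ ∃ j, ∀ c, g c = j ↔ f c = j) (K : (Fin (b * m) → Fin b) → ℕ)
    (hK : ∀ g ∈ G, K g * q ^ (b - (Finset.univ.image (rep (Rl f g))).card) ≤ q ^ (b * m)) :
    4 * ∑ g ∈ G, K g ≤ q ^ (b * m) := by
  have hbb : 0 < b ^ b := by
    rcases Nat.eq_zero_or_pos b with h | h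
    · subst h
      norm_num
    · exact Nat.pow_pos h
  -- one map `ρ`
  have h2 : ∀ ρ : Fin b → Fin b,
      4 * b ^ b * ∑ g ∈ G.filter (fun g => rep (Rl f g) = ρ), K g ≤ q ^ (b * m) := by
    intro ρ
    rcases (G.filter (fun g => rep (Rl f g) = ρ)).eq_empty_or_nonempty with he | ⟨g₀, hg₀⟩
    · rw [he, Finset.sum_empty, Nat.mul_zero]
      exact Nat.zero_le _
    · obtain ⟨hg₀G, hg₀ρ⟩ := Finset.mem_filter.1 hg₀
      obtain ⟨hne, j, hj⟩ := hG g₀ hg₀G
      -- the class of `j` is trivial
      have hjr : ∀ i i', Relation.EqvGen (Rl f g₀) i i' → (i = j ↔ i' = j) := by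
        intro i i' h
        induction h with
        | rel x y h =>
          obtain ⟨c, h3, h4⟩ := h
          rw [← h3, ← h4]
          exact (hj c).symm
        | refl x => exact Iff.rfl
        | symm x y _ ih => exact ih.symm
        | trans x y z _ _ ih1 ih2 => exact ih1.trans ih2
      have hj' : ∀ i, ρ i = ρ j → i = j := by
        intro i hi
        rw [← hg₀ρ, rep_eq] at hi
        exact (hjr i j hi).2 rfl
      obtain ⟨c, hc⟩ : ∃ c, g₀ c ≠ f c := by
        by_contra h
        push Not at h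
        exact hne (funext h)
      have h12 : ρ (g₀ c) = ρ (f c) := by
        rw [← hg₀ρ, rep_eq]
        exact (Relation.EqvGen.rel _ _ ⟨c, rfl, rfl⟩).symm
      have hcore := core hyp hf ρ j hj' (g₀ c) (f c) hc h12
      -- the number of maps
      have hcnt : (G.filter (fun g => rep (Rl f g) = ρ)).card ≤ ∏ c, rs ρ (ρ (f c)) := by
        have hsub : G.filter (fun g => rep (Rl f g) = ρ) ⊆
            Fintype.piFinset (fun c => Finset.univ.filter fun j => ρ j = ρ (f c)) := by
          intro g hg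
          rw [Fintype.mem_piFinset]
          intro c
          refine Finset.mem_filter.2 ⟨Finset.mem_univ _, ?_⟩
          rw [← (Finset.mem_filter.1 hg).2, rep_eq]
          exact (Relation.EqvGen.rel _ _ ⟨c, rfl, rfl⟩).symm
        have := Finset.card_le_card hsub
        rwa [Fintype.card_piFinset] at this
      have hP : 0 < q ^ (b - (Finset.univ.image ρ).card) := Nat.pow_pos hq
      have hsum : (∑ g ∈ G.filter (fun g => rep (Rl f g) = ρ), K g) *
          q ^ (b - (Finset.univ.image ρ).card) ≤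
          (G.filter (fun g => rep (Rl f g) = ρ)).card * q ^ (b * m) := by
        rw [Finset.sum_mul]
        refine (Finset.sum_le_sum (g := fun _ => q ^ (b * m)) fun g hg => ?_).trans ?_
        · obtain ⟨h3, h4⟩ := Finset.mem_filter.1 hg
          have := hK g h3
          rwa [h4] at this
        · rw [Finset.sum_const, smul_eq_mul]
      refine Nat.le_of_mul_le_mul_right ?_ hP
      calc 4 * b ^ b * (∑ g ∈ G.filter (fun g => rep (Rl f g) = ρ), K g) *
            q ^ (b - (Finset.univ.image ρ).card)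
          = 4 * b ^ b * ((∑ g ∈ G.filter (fun g => rep (Rl f g) = ρ), K g) *
            q ^ (b - (Finset.univ.image ρ).card)) := by ring
        _ ≤ 4 * b ^ b * ((∏ c, rs ρ (ρ (f c))) * q ^ (b * m)) :=
            Nat.mul_le_mul_left _ (hsum.trans (Nat.mul_le_mul_right _ hcnt))
        _ = 4 * b ^ b * (∏ c, rs ρ (ρ (f c))) * q ^ (b * m) := by ring
        _ ≤ q ^ (b - (Finset.univ.image ρ).card) * q ^ (b * m) := Nat.mul_le_mul_right _ hcore
        _ = q ^ (b * m) * q ^ (b - (Finset.univ.image ρ).card) := by ring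
  have h1 : ∑ g ∈ G, K g = ∑ ρ : Fin b → Fin b,
      ∑ g ∈ G.filter (fun g => rep (Rl f g) = ρ), K g :=
    (Finset.sum_fiberwise_of_maps_to (fun _ _ => Finset.mem_univ _) K).symm
  refine Nat.le_of_mul_le_mul_left ?_ hbb
  calc b ^ b * (4 * ∑ g ∈ G, K g)
      = ∑ ρ : Fin b → Fin b, 4 * b ^ b * ∑ g ∈ G.filter (fun g => rep (Rl f g) = ρ), K g := by
        rw [h1, ← Finset.mul_sum]
        ring
    _ ≤ ∑ _ρ : Fin b → Fin b, q ^ (b * m) := Finset.sum_le_sum fun ρ _ => h2 ρ
    _ = b ^ b * q ^ (b * m) := by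
        rw [Finset.sum_const, Finset.card_univ, Fintype.card_fun, Fintype.card_fin, smul_eq_mul]

theorem pairs (hK : KerStmt) : PairsStmt := by
  classical
  intro b m V _ _ hm hyp f hf
  have hq : 1 ≤ Fintype.card V := Fintype.card_pos_iff.2 ⟨0⟩
  refine aux hq hyp hf _ (fun g hg => (Finset.mem_filter.1 hg).2.2) _ ?_
  intro g _
  have h := hK b (b * m) V f g (rep (Rl f g)) (fun i j => rep_eq _ i j)
  refine le_trans (le_of_eq ?_) h
  congr 2

end Pool.Agent.W699.MG
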